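import Pool.Agent.LPC.Stmts

/-!
# Squad LPC: verified computation with polynomials with integer coefficients
-/

set_option autoImplicit false

noncomputable section

open MeasureTheory Filter Topology

namespace Pool.Agent.LPC.H17

open Pool.Agent.LPC

/-- `c + (a + x) M(x)` -/
def mx (a : ℤ) : ℤ → List ℤ → List ℤ
  | c, [] => [c]
  | c, m :: ms => (a * m + c) :: mx a m ms

theorem ev_mx (a : ℤ) (x : ℝ) : ∀ (M : List ℤ) (c : ℤ), ev (mx a c M) x = c + (a + x) * ev M x := by
  intro M
  induction M with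
  | nil => intro c; simp [mx, ev]
  | cons m ms ih =>
    intro c
    simp only [mx, ev, ih]
    push_cast
    ring

/-- `P(a + x)` -/
def sh (a : ℤ) : List ℤ → List ℤ
  | [] => []
  | c :: l => mx a c (sh a l)

theorem ev_sh (a : ℤ) (x : ℝ) : ∀ l : List ℤ, ev (sh a l) x = ev l (a + x) := by
  intro l
  induction l with
  | nil => simp [sh, ev]
  | cons c l ih => simp only [sh, ev, ev_mx, ih]

/-- the negative part -/
def np : ℤ → ℤ
  | Int.ofNat _ => 0
  | Int.negSucc n => Int.negSucc n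

theorem np_nonpos (z : ℤ) : np z ≤ 0 := by
  cases z with
  | ofNat n => simp [np]
  | negSucc n => simp only [np]; exact (Int.negSucc_lt_zero n).le

theorem np_le (z : ℤ) : np z ≤ z := by
  cases z with
  | ofNat n => simp [np]
  | negSucc n => simp [np]

/-- nonnegative -/
def nn : ℤ → Bool
  | Int.ofNat _ => true
  | Int.negSucc _ => false

theorem nn_iff {z : ℤ} (h : nn z = true) : 0 ≤ z := by
  cases z with
  | ofNat n => exact Int.natCast_nonneg n
  | negSucc n => simp [nn] at h

/-- a lower bound for the values on `[0, h]` -/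
def lo (h : ℤ) : List ℤ → ℤ
  | [] => 0
  | c :: l => c + np (h * lo h l)

theorem lo_le (h : ℤ) (x : ℝ) (hx0 : 0 ≤ x) (hx : x ≤ h) : ∀ l : List ℤ, (lo h l : ℝ) ≤ ev l x := by
  intro l
  induction l with
  | nil => simp [lo, ev]
  | cons c l ih =>
    simp only [lo, ev]
    push_cast
    have h1 : ((np (h * lo h l) : ℤ) : ℝ) ≤ x * ev l x := by
      have h2 : x * (lo h l : ℝ) ≤ x * ev l x := mul_le_mul_of_nonneg_left ih hx0
      refine le_trans ?_ h2
      rcases le_total 0 (lo h l) with h3 | h3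
      · have : ((np (h * lo h l) : ℤ) : ℝ) ≤ 0 := by exact_mod_cast np_nonpos _
        have h4 : (0 : ℝ) ≤ (lo h l : ℝ) := by exact_mod_cast h3
        nlinarith [mul_nonneg hx0 h4]
      · have h5 : ((np (h * lo h l) : ℤ) : ℝ) ≤ (h : ℝ) * (lo h l : ℝ) := by exact_mod_cast np_le _
        have h4 : (lo h l : ℝ) ≤ 0 := by exact_mod_cast h3
        nlinarith
    linarith

/-- positivity on `[a, a + sum of the steps]` -/
def chk (P : List ℤ) : ℤ → List ℤ → Bool
  | _, [] => true
  | a, h :: hs => nn (lo h (sh a P)) && chk P (a + h) hs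

theorem chk_sound (P : List ℤ) : ∀ (hs : List ℤ) (a : ℤ), chk P a hs = true →
    ∀ x : ℝ, (a : ℝ) ≤ x → x < ((a + hs.sum : ℤ) : ℝ) → 0 ≤ ev P x := by
  intro hs
  induction hs with
  | nil =>
    intro a _ x h1 h2
    simp at h2
    linarith
  | cons h hs ih =>
    intro a hc x h1 h2
    simp only [chk, Bool.and_eq_true] at hc
    rcases le_or_gt x ((a : ℝ) + h) with h3 | h3
    · have h4 := lo_le h (x - a) (by linarith) (by linarith) (sh a P)
      rw [ev_sh] at h4
      have h5 : (0 : ℝ) ≤ (lo h (sh a P) : ℝ) := by exact_mod_cast nn_iff hc.1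
      have h6 : (a : ℝ) + (x - a) = x := by ring
      rw [h6] at h4
      linarith
    · refine ih (a + h) hc.2 x ?_ ?_
      · push_cast; linarith
      · simp only [List.sum_cons] at h2
        have : a + h + hs.sum = a + (h + hs.sum) := by ring
        rw [this]; exact h2

/-- all coefficients are nonnegative -/
def alln : List ℤ → Bool
  | [] => true
  | c :: l => nn c && alln l

theorem alln_sound : ∀ l : List ℤ, alln l = true → ∀ x : ℝ, 0 ≤ x → 0 ≤ ev l x := by
  intro l
  induction l with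
  | nil => intro _ x _; simp [ev]
  | cons c l ih =>
    intro h x hx
    simp only [alln, Bool.and_eq_true] at h
    have h1 : (0 : ℝ) ≤ (c : ℝ) := by exact_mod_cast nn_iff h.1
    have h2 := ih h.2 x hx
    simp only [ev]
    positivity

/-- positivity on `[a, ∞)` -/
def chkT (P : List ℤ) (a : ℤ) (hs : List ℤ) : Bool :=
  chk P a hs && alln (sh (a + hs.sum) P)

theorem chkT_sound (P : List ℤ) (a : ℤ) (hs : List ℤ) (h : chkT P a hs = true) (x : ℝ)
    (hx : (a : ℝ) ≤ x) : 0 ≤ ev P x := by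
  simp only [chkT, Bool.and_eq_true] at h
  rcases lt_or_ge x ((a + hs.sum : ℤ) : ℝ) with h1 | h1
  · exact chk_sound P hs a h.1 x hx h1
  · have h2 := alln_sound _ h.2 (x - ((a + hs.sum : ℤ) : ℝ)) (by linarith)
    rw [ev_sh] at h2
    have h3 : ((a + hs.sum : ℤ) : ℝ) + (x - ((a + hs.sum : ℤ) : ℝ)) = x := by ring
    rwa [h3] at h2

/-- change of the unit: `b^(d) P(X / b)` -/
def scl (b : ℤ) : List ℤ → List ℤ
  | [] => []
  | c :: l => (c * b ^ l.length) :: scl b l

theorem ev_scl (b : ℤ) (x : ℝ) : ∀ l : List ℤ,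
    ev (scl b l) (b * x) * b = b ^ l.length * ev l x := by
  intro l
  induction l with
  | nil => simp [scl, ev]
  | cons c l ih =>
    simp only [scl, ev, List.length_cons]
    push_cast
    have : (↑c * (b : ℝ) ^ l.length + ↑b * x * ev (scl b l) (↑b * x)) * ↑b
        = (b : ℝ) ^ (l.length + 1) * c + b * x * (ev (scl b l) (↑b * x) * ↑b) := by ring
    rw [this, ih]
    ring

theorem ev_nonneg_of_scl {b : ℤ} (hb : 0 < b) {l : List ℤ} {x : ℝ}
    (h : 0 ≤ ev (scl b l) (b * x)) : 0 ≤ ev l x := by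
  have hb' : (0 : ℝ) < (b : ℝ) := by exact_mod_cast hb
  have h1 := ev_scl b x l
  have h2 : (0 : ℝ) < (b : ℝ) ^ l.length := pow_pos hb' _
  by_contra hc
  push Not at hc
  have h3 : (b : ℝ) ^ l.length * ev l x < 0 := mul_neg_of_pos_of_neg h2 hc
  have h4 : 0 ≤ ev (scl b l) (b * x) * b := mul_nonneg h hb'.le
  linarith

/-- sum of two polynomials -/
def ad : List ℤ → List ℤ → List ℤ
  | [], l => l
  | a :: k, [] => a :: k
  | a :: k, b :: l => (a + b) :: ad k l

theorem ev_ad (x : ℝ) : ∀ k l : List ℤ, ev (ad k l) x = ev k x + ev l x := by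
  intro k
  induction k with
  | nil => intro l; simp [ad, ev]
  | cons a k ih =>
    intro l
    cases l with
    | nil => simp [ad, ev]
    | cons b l =>
      simp only [ad, ev, ih]
      push_cast
      ring

/-- scalar multiple -/
def sm (a : ℤ) : List ℤ → List ℤ
  | [] => []
  | c :: l => (a * c) :: sm a l

theorem ev_sm (a : ℤ) (x : ℝ) : ∀ l : List ℤ, ev (sm a l) x = a * ev l x := by
  intro l
  induction l with
  | nil => simp [sm, ev]
  | cons c l ih =>
    simp only [sm, ev, ih]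
    push_cast
    ring

theorem ev_append (x : ℝ) (c : ℤ) : ∀ l : List ℤ, ev (l ++ [c]) x = ev l x + x ^ l.length * c := by
  intro l
  induction l with
  | nil => simp [ev]
  | cons a l ih =>
    simp only [List.cons_append, ev, ih, List.length_cons]
    ring

theorem ev_map_range (f : ℕ → ℤ) (x : ℝ) (N : ℕ) :
    ev ((List.range N).map f) x = ∑ j ∈ Finset.range N, (f j : ℝ) * x ^ j := by
  induction N with
  | zero => simp [ev]
  | succ N ih =>
    rw [List.range_succ, List.map_append, List.map_singleton, ev_append, ih, Finset.sum_range_succ]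
    simp
    ring

theorem ev_zero (l : List ℤ) : ev l 0 = ((l.headD 0 : ℤ) : ℝ) := by
  cases l <;> simp [ev]

/-- coefficients of `2^J J! ∑_(j ≤ J) (x/2)^j / j!` -/
def exl (J : ℕ) : List ℤ :=
  (List.range (J + 1)).map fun j => ((2 ^ J * J.factorial / (2 ^ j * j.factorial) : ℕ) : ℤ)

theorem exl_le (J : ℕ) (x : ℝ) (hx : 0 ≤ x) :
    ev (exl J) x ≤ ((2 ^ J * J.factorial : ℕ) : ℝ) * Real.exp (x / 2) := by
  have h1 := Real.sum_le_exp_of_nonneg (x := x / 2) (by positivity) (J + 1)
  have h2 : ev (exl J) x = ((2 ^ J * J.factorial : ℕ) : ℝ) *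
      ∑ i ∈ Finset.range (J + 1), (x / 2) ^ i / (i.factorial : ℝ) := by
    rw [exl, ev_map_range, Finset.mul_sum]
    refine Finset.sum_congr rfl fun j hj => ?_
    have hj' : j ≤ J := by
      have := Finset.mem_range.mp hj
      omega
    have hd : (2 ^ j * j.factorial) ∣ (2 ^ J * J.factorial) :=
      Nat.mul_dvd_mul (pow_dvd_pow 2 hj') (Nat.factorial_dvd_factorial hj')
    have hne : ((2 ^ j * j.factorial : ℕ) : ℝ) ≠ 0 := by positivity
    have hne2 : (j.factorial : ℝ) ≠ 0 := by positivity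
    have h3 : (((2 ^ J * J.factorial / (2 ^ j * j.factorial) : ℕ) : ℤ) : ℝ)
        = ((2 ^ J * J.factorial : ℕ) : ℝ) / ((2 ^ j * j.factorial : ℕ) : ℝ) := by
      rw [Int.cast_natCast, Nat.cast_div hd hne]
    rw [h3]
    push_cast
    rw [div_pow]
    field_simp
  rw [h2]
  exact mul_le_mul_of_nonneg_left h1 (by positivity)

/-- `n` times the weight of the points before the place `X` (unit `1 / b`, `c = 2 s b`) -/
def wl (n c : ℕ) (X : ℤ) : List (ℕ × ℕ) → ℤ
  | [] => 0
  | (e, v) :: l => (if X + e ≤ c then ((n * v : ℕ) : ℤ) else if X ≤ ((c + e : ℕ) : ℤ) then (v : ℤ) else 0)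
      + wl n c X l

/-- the list of the weights -/
def yl (s b : ℕ) (y : List (ℕ × ℕ)) : List (ℝ × ℝ) :=
  y.map fun a => (2 + (a.1 : ℝ) / (b * s), (a.2 : ℝ))

theorem wt_nonneg (n : ℕ) (s τ t : ℝ) : 0 ≤ wt n s τ t := by
  unfold wt
  split_ifs <;> positivity

theorem wl_le (n s b : ℕ) (hn : 1 ≤ n) (hs : 1 ≤ s) (hb : 1 ≤ b) (X : ℤ) (u : ℝ)
    (hu : (b : ℝ) * u < X) : ∀ y : List (ℕ × ℕ),
    (wl n (2 * s * b) X y : ℝ) ≤ n * ((yl s b y).map fun a => a.2 * wt n s a.1 u).sum := by
  intro y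
  have hn' : (0 : ℝ) < n := by exact_mod_cast hn
  have hn1 : (1 : ℝ) ≤ n := by exact_mod_cast hn
  have hs' : (0 : ℝ) < s := by exact_mod_cast hs
  have hb' : (0 : ℝ) < b := by exact_mod_cast hb
  induction y with
  | nil => simp [wl, yl]
  | cons a y ih =>
    obtain ⟨e, v⟩ := a
    have hv : (0 : ℝ) ≤ v := Nat.cast_nonneg v
    simp only [wl, yl, List.map_cons, List.sum_cons, Int.cast_add, mul_add] at *
    refine add_le_add ?_ ih
    have hτ : (2 + (e : ℝ) / (b * s)) * s * b = 2 * s * b + e := by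
      field_simp
    have hτ2 : (4 - (2 + (e : ℝ) / (b * s))) * s * b = 2 * s * b - e := by
      field_simp
      ring
    by_cases h1 : X + e ≤ ((2 * s * b : ℕ) : ℤ)
    · rw [if_pos h1]
      have h1' : (X : ℝ) + e ≤ 2 * s * b := by exact_mod_cast h1
      have h2 : u < (4 - (2 + (e : ℝ) / (b * s))) * s := by
        by_contra hc
        push Not at hc
        have := mul_le_mul_of_nonneg_right hc hb'.le
        rw [hτ2] at this
        linarith
      have h3 : wt n s (2 + (e : ℝ) / (b * s)) u = 1 := if_pos h2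
      rw [h3]
      push_cast
      linarith
    · rw [if_neg h1]
      by_cases h4 : X ≤ ((2 * s * b + e : ℕ) : ℤ)
      · rw [if_pos h4]
        have h4' : (X : ℝ) ≤ 2 * s * b + e := by exact_mod_cast h4
        have h5 : u ≤ (2 + (e : ℝ) / (b * s)) * s := by
          by_contra hc
          push Not at hc
          have := mul_le_mul_of_nonneg_right hc.le hb'.le
          rw [hτ] at this
          linarith
        have h6 : (1 : ℝ) / n ≤ wt n s (2 + (e : ℝ) / (b * s)) u := by
          unfold wt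
          split_ifs
          · rw [div_le_one hn']; exact hn1
          · exact le_refl _
        have h7 : (v : ℝ) = n * (v * (1 / n)) := by field_simp
        calc (((v : ℕ) : ℤ) : ℝ) = n * (v * (1 / n)) := by rw [Int.cast_natCast]; exact h7
          _ ≤ n * (v * wt n s (2 + (e : ℝ) / (b * s)) u) :=
            mul_le_mul_of_nonneg_left (mul_le_mul_of_nonneg_left h6 hv) hn'.le
      · rw [if_neg h4]
        push_cast
        exact mul_nonneg hn'.le (mul_nonneg hv (wt_nonneg _ _ _ _))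

/-- the polynomial of one piece -/
def G (n J M k Na : ℕ) (w : ℤ) (p : List ℤ) : List ℤ :=
  ad (sm (w * Na) (exl J)) (sm (-((n * 10 ^ M * (2 ^ J * J.factorial) : ℕ) : ℤ)) (sh (2 * k) p))

/-- the check of all pieces from the place `X` -/
def chkP (n s b J M : ℕ) (p : List ℤ) (y : List (ℕ × ℕ)) (tst : List ℤ) :
    ℤ → List (ℕ × ℕ × List ℤ) → Bool
  | X, [] => chkT (scl b (sm (-1) p)) X tst
  | X, (k, Na, st) :: r =>
    Nat.ble (Na * 10 ^ (10 * k)) (10 ^ M * 27182818283 ^ k) && (nn (X - 2 * k * b) &&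
      (nn (wl n (2 * s * b) (X + st.sum) y) &&
      (chk (scl b (G n J M k Na (wl n (2 * s * b) (X + st.sum) y) p)) (X - 2 * k * b) st &&
        chkP n s b J M p y tst (X + st.sum) r)))

theorem chkP_sound (n s b J M : ℕ) (hn : 1 ≤ n) (hs : 1 ≤ s) (hb : 1 ≤ b) (p : List ℤ)
    (y : List (ℕ × ℕ)) (tst : List ℤ) : ∀ (r : List (ℕ × ℕ × List ℤ)) (X : ℤ),
    chkP n s b J M p y tst X r = true → ∀ u : ℝ, (X : ℝ) ≤ b * u →
      ev p u * Real.exp (-u / 2) ≤ ((yl s b y).map fun a => a.2 * wt n s a.1 u).sum := by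
  have hn' : (0 : ℝ) < n := by exact_mod_cast hn
  have hb' : (0 : ℝ) < b := by exact_mod_cast hb
  have hbz : (0 : ℤ) < b := by exact_mod_cast hb
  intro r
  induction r with
  | nil =>
    intro X h u hu
    simp only [chkP] at h
    have h1 := chkT_sound _ _ _ h (b * u) hu
    have h2 := ev_nonneg_of_scl hbz (l := sm (-1) p) (x := u) (by exact_mod_cast h1)
    rw [ev_sm] at h2
    push_cast at h2
    have h3 : ev p u * Real.exp (-u / 2) ≤ 0 :=
      mul_nonpos_of_nonpos_of_nonneg (by linarith) (Real.exp_pos _).le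
    refine h3.trans (List.sum_nonneg ?_)
    intro z hz
    simp only [yl, List.map_map, List.mem_map, Function.comp] at hz
    obtain ⟨a, _, rfl⟩ := hz
    exact mul_nonneg (Nat.cast_nonneg _) (wt_nonneg _ _ _ _)
  | cons a r ih =>
    obtain ⟨k, Na, st⟩ := a
    intro X h u hu
    simp only [chkP, Bool.and_eq_true] at h
    obtain ⟨h1, h2, h2', h3, h4⟩ := h
    rcases lt_or_ge ((b : ℝ) * u) ((X + st.sum : ℤ) : ℝ) with hc | hc
    swap
    · exact ih _ h4 u hc
    set w := wl n (2 * s * b) (X + st.sum) y with hw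
    have hw0 : (0 : ℝ) ≤ (w : ℝ) := by exact_mod_cast nn_iff h2'
    have hX : (0 : ℝ) ≤ ((X - 2 * k * b : ℤ) : ℝ) := by exact_mod_cast nn_iff h2
    push_cast at hX
    have hx : 0 ≤ u - 2 * k := by
      by_contra hcc
      push Not at hcc
      have : (b : ℝ) * (u - 2 * k) < 0 := mul_neg_of_pos_of_neg hb' hcc
      have h5 : (b : ℝ) * (u - 2 * k) = b * u - 2 * k * b := by ring
      linarith
    have h6 := chk_sound _ _ _ h3 (b * (u - 2 * k)) (by push_cast; linarith) (by
      have : ((X - 2 * k * b + st.sum : ℤ) : ℝ) = ((X + st.sum : ℤ) : ℝ) - 2 * k * b := by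
        push_cast; ring
      rw [this]; linarith)
    have h7 := ev_nonneg_of_scl hbz (l := G n J M k Na w p) (x := u - 2 * k) (by exact_mod_cast h6)
    rw [G, ev_ad, ev_sm, ev_sm, ev_sh] at h7
    have h8 : ((2 * k : ℤ) : ℝ) + (u - 2 * k) = u := by push_cast; ring
    rw [h8] at h7
    have h9 := exl_le J (u - 2 * k) hx
    have h10 : (Na : ℝ) ≤ 10 ^ M * Real.exp k := by
      have h11 : Na * 10 ^ (10 * k) ≤ 10 ^ M * 27182818283 ^ k := Nat.le_of_ble_eq_true h1
      have h12 : (Na : ℝ) * 10 ^ (10 * k) ≤ 10 ^ M * 27182818283 ^ k := by exact_mod_cast h11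
      have h13 : Real.exp k = Real.exp 1 ^ k := by rw [← Real.exp_nat_mul]; simp
      have h14 : ((27182818283 : ℝ) / 10 ^ 10) ^ k ≤ Real.exp 1 ^ k := by
        refine pow_le_pow_left₀ (by positivity) ?_ k
        have := Real.exp_one_gt_d9
        norm_num at this ⊢
        linarith
      rw [h13]
      rw [div_pow, ← pow_mul, div_le_iff₀ (by positivity)] at h14
      have h15 : (0 : ℝ) < 10 ^ (10 * k) := by positivity
      have h16 : (Na : ℝ) * 10 ^ (10 * k) ≤ (10 ^ M * Real.exp 1 ^ k) * 10 ^ (10 * k) := by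
        calc (Na : ℝ) * 10 ^ (10 * k) ≤ 10 ^ M * 27182818283 ^ k := h12
          _ ≤ 10 ^ M * (Real.exp 1 ^ k * 10 ^ (10 * k)) :=
            mul_le_mul_of_nonneg_left h14 (by positivity)
          _ = _ := by ring
      exact le_of_mul_le_mul_right h16 h15
    have hK : (0 : ℝ) < ((2 ^ J * J.factorial : ℕ) : ℝ) := by positivity
    have h17 : (n : ℝ) * ev p u ≤ w * Real.exp (u / 2) := by
      have h18 : ((w * Na : ℤ) : ℝ) * ev (exl J) (u - 2 * k) ≤
          (w * (10 ^ M * Real.exp k)) * (((2 ^ J * J.factorial : ℕ) : ℝ) * Real.exp ((u - 2 * k) / 2)) := by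
        push_cast
        have h19 : (w : ℝ) * Na ≤ w * (10 ^ M * Real.exp k) := mul_le_mul_of_nonneg_left h10 hw0
        have h20 : (0 : ℝ) ≤ (w : ℝ) * Na := mul_nonneg hw0 (Nat.cast_nonneg _)
        calc (w : ℝ) * Na * ev (exl J) (u - 2 * k)
            ≤ (w : ℝ) * Na * (((2 ^ J * J.factorial : ℕ) : ℝ) * Real.exp ((u - 2 * k) / 2)) :=
              mul_le_mul_of_nonneg_left h9 h20
          _ ≤ (w * (10 ^ M * Real.exp k)) *
              (((2 ^ J * J.factorial : ℕ) : ℝ) * Real.exp ((u - 2 * k) / 2)) :=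
              mul_le_mul_of_nonneg_right h19 (by positivity)
          _ = _ := by push_cast; ring
      have h21 : Real.exp k * Real.exp ((u - 2 * k) / 2) = Real.exp (u / 2) := by
        rw [← Real.exp_add]; congr 1; ring
      have h22 : (10 : ℝ) ^ M * ((2 ^ J * J.factorial : ℕ) : ℝ) * (n * ev p u)
          ≤ (10 : ℝ) ^ M * ((2 ^ J * J.factorial : ℕ) : ℝ) * (w * Real.exp (u / 2)) := by
        rw [← h21]
        have h23 : ((-((n * 10 ^ M * (2 ^ J * J.factorial) : ℕ) : ℤ) : ℤ) : ℝ)
            = -(n * 10 ^ M * ((2 ^ J * J.factorial : ℕ) : ℝ)) := by push_cast; ring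
        rw [h23] at h7
        nlinarith [h7, h18]
      exact le_of_mul_le_mul_left h22 (by positivity)
    have h24 := wl_le n s b hn hs hb (X + st.sum) u hc y
    rw [← hw] at h24
    have h25 : (n : ℝ) * (ev p u * Real.exp (-u / 2)) ≤ w := by
      have h26 : Real.exp (u / 2) * Real.exp (-u / 2) = 1 := by
        rw [← Real.exp_add]; simp [neg_div]
      calc (n : ℝ) * (ev p u * Real.exp (-u / 2)) = (n * ev p u) * Real.exp (-u / 2) := by ring
        _ ≤ (w * Real.exp (u / 2)) * Real.exp (-u / 2) :=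
          mul_le_mul_of_nonneg_right h17 (Real.exp_pos _).le
        _ = w := by rw [mul_assoc, h26, mul_one]
    exact le_of_mul_le_mul_left (h25.trans h24) hn'

/-- the data of a certificate -/
structure Dat where
  n : ℕ
  s : ℕ
  b : ℕ
  J : ℕ
  M : ℕ
  q : List ℤ
  p : List ℤ
  y : List (ℕ × ℕ)
  qst : List ℤ
  pc : List (ℕ × ℕ × List ℤ)
  tst : List ℤ

/-- the conditions for the thresholds -/
def chkY (n s b : ℕ) : List (ℕ × ℕ) → Bool
  | [] => true
  | (e, _) :: l => Nat.blt ((2 * b * s + e) * (n - 1)) (2 * n * b * s) && chkY n s b l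

theorem chkY_sound (n s b : ℕ) (hn : 1 ≤ n) (hs : 1 ≤ s) (hb : 1 ≤ b) : ∀ y : List (ℕ × ℕ),
    chkY n s b y = true → ∀ a ∈ yl s b y, 2 ≤ a.1 ∧ a.1 * ((n : ℝ) - 1) < 2 * n ∧ 0 ≤ a.2 := by
  have hs' : (0 : ℝ) < s := by exact_mod_cast hs
  have hb' : (0 : ℝ) < b := by exact_mod_cast hb
  intro y
  induction y with
  | nil => intro _ a ha; simp [yl] at ha
  | cons c y ih =>
    obtain ⟨e, v⟩ := c
    intro h a ha
    simp only [chkY, Bool.and_eq_true] at h
    simp only [yl, List.map_cons, List.mem_cons] at ha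
    rcases ha with rfl | ha
    · refine ⟨?_, ?_, Nat.cast_nonneg _⟩
      · have : (0 : ℝ) ≤ (e : ℝ) / (b * s) := by positivity
        simp only
        linarith
      · have h1 : (2 * b * s + e) * (n - 1) < 2 * n * b * s := by
          have := h.1
          simpa [Nat.blt_eq] using this
        have h2 : (((2 * b * s + e) * (n - 1) : ℕ) : ℝ) < ((2 * n * b * s : ℕ) : ℝ) := by
          exact_mod_cast h1
        push_cast [Nat.cast_sub hn] at h2
        simp only
        have h3 : (2 + (e : ℝ) / (b * s)) * ((n : ℝ) - 1) * (b * s) = (2 * b * s + e) * ((n : ℝ) - 1) := by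
          field_simp
        by_contra hc
        push Not at hc
        have := mul_le_mul_of_nonneg_right hc (mul_pos hb' hs').le
        rw [h3] at this
        linarith
    · exact ih h.2 a ha

/-- the complete check -/
def Dat.ok (D : Dat) : Bool :=
  Nat.ble 2 D.n && (Nat.ble 1 D.s && (Nat.ble 1 D.b && (chkY D.n D.s D.b D.y &&
    (chkT (scl D.b D.q) 0 D.qst && (nn (D.q.headD 0 - 1) && (nn (D.p.headD 0) &&
      (decide (tr D.n D.q = D.p) && (decide (tr D.n D.p = D.q) &&
        chkP D.n D.s D.b D.J D.M D.p D.y D.tst (D.s * D.b) D.pc))))))))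

theorem Dat.cert (D : Dat) (h : D.ok = true) : Cert D.n D.s D.q (yl D.s D.b D.y) := by
  simp only [Dat.ok, Bool.and_eq_true, decide_eq_true_eq] at h
  obtain ⟨h1, h2, h3, h4, h5, h6, h7, h8, h9, h10⟩ := h
  have h1' : 2 ≤ D.n := Nat.le_of_ble_eq_true h1
  have h2' : 1 ≤ D.s := Nat.le_of_ble_eq_true h2
  have h3' : 1 ≤ D.b := Nat.le_of_ble_eq_true h3
  have hb' : (0 : ℝ) < D.b := by exact_mod_cast h3'
  have hbz : (0 : ℤ) < D.b := by exact_mod_cast h3'
  refine ⟨h1', by exact_mod_cast h2', ?_, ?_, ?_, ?_, ?_⟩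
  · exact chkY_sound _ _ _ (by omega) h2' h3' _ h4
  · intro v hv
    have h11 := chkT_sound _ _ _ h5 (D.b * v) (by push_cast; positivity)
    exact ev_nonneg_of_scl hbz (by exact_mod_cast h11)
  · rw [h8, h9, ev_zero]
    have := nn_iff h6
    exact_mod_cast (by omega : (0 : ℤ) < D.q.headD 0)
  · rw [h8, ev_zero]
    exact_mod_cast nn_iff h7
  · intro u hu
    rw [h8]
    refine chkP_sound _ _ _ _ _ (by omega) h2' h3' _ _ _ _ _ h10 u ?_
    push_cast
    nlinarith

end Pool.Agent.LPC.H17
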