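import Pool.Agent.Helper17_LPC.Chk

/-!
# Squad LPC: the same verified computation with natural numbers (fast in the kernel)
-/

set_option autoImplicit false

noncomputable section

open MeasureTheory Filter Topology

namespace Pool.Agent.LPC.H17

open Pool.Agent.LPC

/-- lists of natural numbers as lists of integers -/
def cz : List ℕ → List ℤ
  | [] => []
  | c :: l => (c : ℤ) :: cz l

/-- positive parts -/
def pl : List ℤ → List ℕ
  | [] => []
  | c :: l => Int.toNat c :: pl l

/-- negative parts -/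
def nl : List ℤ → List ℕ
  | [] => []
  | c :: l => Int.toNat (-c) :: nl l

theorem len_pl (l : List ℤ) : (pl l).length = l.length := by
  induction l with
  | nil => rfl
  | cons c l ih => simp [pl, ih]

theorem len_nl (l : List ℤ) : (nl l).length = l.length := by
  induction l with
  | nil => rfl
  | cons c l ih => simp [nl, ih]

theorem ev_pl_nl (x : ℝ) : ∀ l : List ℤ, ev l x = ev (cz (pl l)) x - ev (cz (nl l)) x := by
  intro l
  induction l with
  | nil => simp [pl, nl, cz, ev]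
  | cons c l ih =>
    simp only [pl, nl, cz, ev, ih]
    have h1 : c = (c.toNat : ℤ) - ((-c).toNat : ℤ) := by omega
    have h2 : (c : ℝ) = ((c.toNat : ℤ) : ℝ) - (((-c).toNat : ℤ) : ℝ) := by exact_mod_cast h1
    rw [h2]
    ring

/-- `c + (a + x) M(x)` -/
def mxN (a : ℕ) (M : List ℕ) : ℕ → List ℕ :=
  @List.rec ℕ (fun _ => ℕ → List ℕ) (fun c => List.cons c List.nil)
    (fun m _ ih c => List.cons (Nat.add (Nat.mul a m) c) (ih m)) M

theorem mxN_nil (a c : ℕ) : mxN a [] c = [c] := rfl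

theorem mxN_cons (a c m : ℕ) (ms : List ℕ) : mxN a (m :: ms) c = (a * m + c) :: mxN a ms m := rfl

theorem ev_mxN (a : ℕ) (x : ℝ) : ∀ (M : List ℕ) (c : ℕ),
    ev (cz (mxN a M c)) x = c + (a + x) * ev (cz M) x := by
  intro M
  induction M with
  | nil => intro c; simp [mxN_nil, cz, ev]
  | cons m ms ih =>
    intro c
    simp only [mxN_cons, cz, ev, ih]
    push_cast
    ring

theorem len_mxN (a : ℕ) : ∀ (M : List ℕ) (c : ℕ), (mxN a M c).length = M.length + 1 := by
  intro M
  induction M with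
  | nil => intro c; rfl
  | cons m ms ih => intro c; simp [mxN_cons, ih]

/-- `P(a + x)` -/
def shN (a : ℕ) (l : List ℕ) : List ℕ :=
  @List.rec ℕ (fun _ => List ℕ) List.nil (fun c _ ih => mxN a ih c) l

theorem shN_nil (a : ℕ) : shN a [] = [] := rfl

theorem shN_cons (a c : ℕ) (l : List ℕ) : shN a (c :: l) = mxN a (shN a l) c := rfl

theorem ev_shN (a : ℕ) (x : ℝ) : ∀ l : List ℕ, ev (cz (shN a l)) x = ev (cz l) (a + x) := by
  intro l
  induction l with
  | nil => simp [shN_nil, cz, ev]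
  | cons c l ih =>
    simp only [shN_cons, cz, ev, ev_mxN, ih]
    push_cast
    ring

theorem len_shN (a : ℕ) : ∀ l : List ℕ, (shN a l).length = l.length := by
  intro l
  induction l with
  | nil => rfl
  | cons c l ih => simp [shN_cons, len_mxN, ih]

/-- the first element -/
def hd (l : List ℕ) : ℕ := @List.rec ℕ (fun _ => ℕ) 0 (fun a _ _ => a) l

/-- the list without the first element -/
def tl (l : List ℕ) : List ℕ := @List.rec ℕ (fun _ => List ℕ) List.nil (fun _ l _ => l) l

/-- a lower bound for `A - B` on `[0, h]` is `- loN` -/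
def loN (h : ℕ) (A : List ℕ) : List ℕ → ℕ :=
  @List.rec ℕ (fun _ => List ℕ → ℕ) (fun _ => 0)
    (fun a _ ih B => Nat.sub (Nat.add (hd B) (Nat.mul h (ih (tl B)))) a) A

theorem loN_nil (h : ℕ) (B : List ℕ) : loN h [] B = 0 := rfl

theorem loN_cons (h a b : ℕ) (A B : List ℕ) :
    loN h (a :: A) (b :: B) = b + h * loN h A B - a := rfl

theorem loN_le (h : ℕ) (x : ℝ) (hx0 : 0 ≤ x) (hx : x ≤ h) : ∀ A B : List ℕ,
    B.length = A.length → -(loN h A B : ℝ) ≤ ev (cz A) x - ev (cz B) x := by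
  intro A
  induction A with
  | nil =>
    intro B hB
    have : B = [] := List.length_eq_zero_iff.mp hB
    subst this
    simp [loN_nil, cz, ev]
  | cons a A ih =>
    intro B hB
    cases B with
    | nil => simp at hB
    | cons b B =>
      have h1 := ih B (by simpa using hB)
      simp only [loN_cons, cz, ev]
      set m := loN h A B with hm
      have h2 : (b : ℝ) + h * m - a ≤ ((b + h * m - a : ℕ) : ℝ) := by
        have h3 : b + h * m ≤ (b + h * m - a) + a := le_tsub_add
        have h4 : ((b + h * m : ℕ) : ℝ) ≤ (((b + h * m - a) + a : ℕ) : ℝ) := by exact_mod_cast h3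
        push_cast at h4
        linarith
      have hm0 : (0 : ℝ) ≤ m := Nat.cast_nonneg m
      have h6 : x * (-(m : ℝ)) ≤ x * (ev (cz A) x - ev (cz B) x) := mul_le_mul_of_nonneg_left h1 hx0
      have h7 : x * (m : ℝ) ≤ h * m := mul_le_mul_of_nonneg_right hx hm0
      push_cast
      nlinarith

/-- positivity of `A - B` on `[a, a + sum of the steps)` -/
def chkN (A B : List ℕ) (hs : List ℕ) : ℕ → Bool :=
  @List.rec ℕ (fun _ => ℕ → Bool) (fun _ => true)
    (fun h _ ih a => Bool.and (Nat.beq (loN h (shN a A) (shN a B)) 0) (ih (Nat.add a h))) hs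

theorem chkN_cons (A B : List ℕ) (h : ℕ) (hs : List ℕ) (a : ℕ) : chkN A B (h :: hs) a =
    (Nat.beq (loN h (shN a A) (shN a B)) 0 && chkN A B hs (a + h)) := rfl

theorem chkN_sound (A B : List ℕ) (hAB : B.length = A.length) : ∀ (hs : List ℕ) (a : ℕ),
    chkN A B hs a = true → ∀ x : ℝ, (a : ℝ) ≤ x → x < ((a + hs.sum : ℕ) : ℝ) →
      0 ≤ ev (cz A) x - ev (cz B) x := by
  intro hs
  induction hs with
  | nil =>
    intro a _ x h1 h2
    simp at h2
    linarith
  | cons h hs ih =>
    intro a hc x h1 h2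
    simp only [chkN_cons, Bool.and_eq_true] at hc
    rcases le_or_gt x ((a : ℝ) + h) with h3 | h3
    · have h4 := loN_le h (x - a) (by linarith) (by linarith) (shN a A) (shN a B)
        (by rw [len_shN, len_shN, hAB])
      rw [ev_shN, ev_shN] at h4
      have h5 : loN h (shN a A) (shN a B) = 0 := Nat.eq_of_beq_eq_true hc.1
      have h6 : (a : ℝ) + (x - a) = x := by ring
      rw [h6, h5] at h4
      simpa using h4
    · refine ih (a + h) hc.2 x ?_ ?_
      · push_cast; linarith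
      · simp only [List.sum_cons] at h2
        rw [add_assoc]; exact h2

/-- all coefficients of `A - B` are nonnegative -/
def allN (A : List ℕ) : List ℕ → Bool :=
  @List.rec ℕ (fun _ => List ℕ → Bool) (fun _ => true)
    (fun a _ ih B => Bool.and (Nat.ble (hd B) a) (ih (tl B))) A

theorem allN_cons (a b : ℕ) (A B : List ℕ) : allN (a :: A) (b :: B) =
    (Nat.ble b a && allN A B) := rfl

theorem allN_sound (x : ℝ) (hx : 0 ≤ x) : ∀ A B : List ℕ, B.length = A.length →
    allN A B = true → 0 ≤ ev (cz A) x - ev (cz B) x := by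
  intro A
  induction A with
  | nil =>
    intro B hB _
    have : B = [] := List.length_eq_zero_iff.mp hB
    subst this
    simp [cz, ev]
  | cons a A ih =>
    intro B hB h
    cases B with
    | nil => simp at hB
    | cons b B =>
      simp only [allN_cons, Bool.and_eq_true] at h
      have h1 := ih B (by simpa using hB) h.2
      have h2 : (b : ℝ) ≤ a := by exact_mod_cast Nat.le_of_ble_eq_true h.1
      simp only [cz, ev]
      push_cast
      nlinarith

/-- positivity of `P` on `[a, b)` -/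
def Pos (P : List ℤ) (a b : ℕ) : Prop := ∀ x : ℝ, (a : ℝ) ≤ x → x < b → 0 ≤ ev P x

/-- positivity of `P` on `[a, ∞)` -/
def PosT (P : List ℤ) (a : ℕ) : Prop := ∀ x : ℝ, (a : ℝ) ≤ x → 0 ≤ ev P x

theorem Pos.trans {P : List ℤ} {a b c : ℕ} (h1 : Pos P a b) (h2 : Pos P b c) : Pos P a c := by
  intro x hx1 hx2
  rcases lt_or_ge x (b : ℝ) with h | h
  · exact h1 x hx1 h
  · exact h2 x h hx2

theorem Pos.tail {P : List ℤ} {a b : ℕ} (h1 : Pos P a b) (h2 : PosT P b) : PosT P a := by
  intro x hx1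
  rcases lt_or_ge x (b : ℝ) with h | h
  · exact h1 x hx1 h
  · exact h2 x h

theorem pos_of (P : List ℤ) (a b : ℕ) (hs : List ℕ) (hb : a + hs.sum = b)
    (h : chkN (pl P) (nl P) hs a = true) : Pos P a b := by
  intro x h1 h2
  rw [ev_pl_nl]
  exact chkN_sound _ _ (by rw [len_pl, len_nl]) hs a h x h1 (by rw [hb]; exact h2)

theorem posT_of (P : List ℤ) (a : ℕ) (h : allN (shN a (pl P)) (shN a (nl P)) = true) : PosT P a := by
  intro x h1
  rw [ev_pl_nl]
  have h2 := allN_sound (x - a) (by linarith) _ _ (by rw [len_shN, len_shN, len_pl, len_nl]) h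
  rw [ev_shN, ev_shN] at h2
  have h3 : (a : ℝ) + (x - a) = x := by ring
  rwa [h3] at h2

/-- the inequality for `p` between the places `X` and `X'` (unit `1 / b`) -/
def Pc (n s b : ℕ) (p : List ℤ) (y : List (ℕ × ℕ)) (X X' : ℕ) : Prop :=
  ∀ u : ℝ, (X : ℝ) ≤ b * u → (b : ℝ) * u < X' →
    ev p u * Real.exp (-u / 2) ≤ ((yl s b y).map fun a => a.2 * wt n s a.1 u).sum

theorem Pc.trans {n s b : ℕ} {p : List ℤ} {y : List (ℕ × ℕ)} {X X' X'' : ℕ}
    (h1 : Pc n s b p y X X') (h2 : Pc n s b p y X' X'') : Pc n s b p y X X'' := by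
  intro u hu1 hu2
  rcases lt_or_ge ((b : ℝ) * u) (X' : ℝ) with h | h
  · exact h1 u hu1 h
  · exact h2 u h hu2

/-- the polynomial of one piece, `ps = p(2 k + x)` -/
def G2 (n J M Na : ℕ) (w : ℤ) (ps : List ℤ) : List ℤ :=
  ad (sm (w * Na) (exl J)) (sm (-((n * 10 ^ M * (2 ^ J * J.factorial) : ℕ) : ℤ)) ps)

/-- the check of one piece: `X = 2 k b + A`, steps `st`, `X' = X + sum of st` -/
theorem pc_of (n s b J M : ℕ) (hn : 1 ≤ n) (hs : 1 ≤ s) (hb : 1 ≤ b) (p : List ℤ)
    (y : List (ℕ × ℕ)) (k Na A X X' w : ℕ) (st : List ℕ) (ps : List ℤ)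
    (hps : sh (2 * k) p = ps) (hX : 2 * k * b + A = X)
    (hX' : X + st.sum = X') (hw : wl n (2 * s * b) X' y = w)
    (hNa : Nat.ble (Na * 10 ^ (10 * k)) (10 ^ M * 27182818283 ^ k) = true)
    (h : chkN (pl (scl b (G2 n J M Na w ps))) (nl (scl b (G2 n J M Na w ps))) st A = true) :
    Pc n s b p y X X' := by
  have hn' : (0 : ℝ) < n := by exact_mod_cast hn
  have hb' : (0 : ℝ) < b := by exact_mod_cast hb
  have hbz : (0 : ℤ) < b := by exact_mod_cast hb
  intro u hu hc
  have hw0 : (0 : ℝ) ≤ (w : ℝ) := Nat.cast_nonneg w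
  have hXr : 2 * (k : ℝ) * b + A = X := by exact_mod_cast hX
  have hX'r : (X : ℝ) + (st.sum : ℕ) = X' := by exact_mod_cast hX'
  have hA0 : (0 : ℝ) ≤ A := Nat.cast_nonneg A
  have hx : 0 ≤ u - 2 * k := by
    by_contra hcc
    push Not at hcc
    have : (b : ℝ) * (u - 2 * k) < 0 := mul_neg_of_pos_of_neg hb' hcc
    have h5 : (b : ℝ) * (u - 2 * k) = b * u - 2 * k * b := by ring
    linarith
  have h6 := pos_of _ A (A + st.sum) st rfl h (b * (u - 2 * k)) (by linarith) (by
    rw [Nat.cast_add]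
    linarith)
  have h7 := ev_nonneg_of_scl hbz (l := G2 n J M Na w ps) (x := u - 2 * k) (by exact_mod_cast h6)
  rw [G2, ev_ad, ev_sm, ev_sm, ← hps, ev_sh] at h7
  have h8 : ((2 * k : ℤ) : ℝ) + (u - 2 * k) = u := by push_cast; ring
  rw [h8] at h7
  have h9 := exl_le J (u - 2 * k) hx
  have h10 : (Na : ℝ) ≤ 10 ^ M * Real.exp k := by
    have h11 : Na * 10 ^ (10 * k) ≤ 10 ^ M * 27182818283 ^ k := Nat.le_of_ble_eq_true hNa
    have h12 : (Na : ℝ) * 10 ^ (10 * k) ≤ 10 ^ M * 27182818283 ^ k := by exact_mod_cast h11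
    have h13 : Real.exp k = Real.exp 1 ^ k := by rw [← Real.exp_nat_mul]; simp
    have h14 : ((27182818283 : ℝ) / 10 ^ 10) ^ k ≤ Real.exp 1 ^ k := by
      refine pow_le_pow_left₀ (by positivity) ?_ k
      have := Real.exp_one_gt_d9
      norm_num at this ⊢
      linarith
    rw [h13]
    rw [div_pow, ← pow_mul, div_le_iff₀ (by positivity)] at h14
    have h15 : (0 : ℝ) < 10 ^ (10 * k) := by positivity
    have h16 : (Na : ℝ) * 10 ^ (10 * k) ≤ (10 ^ M * Real.exp 1 ^ k) * 10 ^ (10 * k) := by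
      calc (Na : ℝ) * 10 ^ (10 * k) ≤ 10 ^ M * 27182818283 ^ k := h12
        _ ≤ 10 ^ M * (Real.exp 1 ^ k * 10 ^ (10 * k)) :=
          mul_le_mul_of_nonneg_left h14 (by positivity)
        _ = _ := by ring
    exact le_of_mul_le_mul_right h16 h15
  have hK : (0 : ℝ) < ((2 ^ J * J.factorial : ℕ) : ℝ) := by positivity
  have h17 : (n : ℝ) * ev p u ≤ w * Real.exp (u / 2) := by
    have h18 : (((w : ℤ) * Na : ℤ) : ℝ) * ev (exl J) (u - 2 * k) ≤
        (w * (10 ^ M * Real.exp k)) * (((2 ^ J * J.factorial : ℕ) : ℝ) * Real.exp ((u - 2 * k) / 2)) := by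
      have h19 : (w : ℝ) * Na ≤ w * (10 ^ M * Real.exp k) := mul_le_mul_of_nonneg_left h10 hw0
      have h20 : (0 : ℝ) ≤ (w : ℝ) * Na := mul_nonneg hw0 (Nat.cast_nonneg _)
      have h20' : (((w : ℤ) * Na : ℤ) : ℝ) = (w : ℝ) * Na := by push_cast; ring
      rw [h20']
      calc (w : ℝ) * Na * ev (exl J) (u - 2 * k)
          ≤ (w : ℝ) * Na * (((2 ^ J * J.factorial : ℕ) : ℝ) * Real.exp ((u - 2 * k) / 2)) :=
            mul_le_mul_of_nonneg_left h9 h20
        _ ≤ (w * (10 ^ M * Real.exp k)) *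
            (((2 ^ J * J.factorial : ℕ) : ℝ) * Real.exp ((u - 2 * k) / 2)) :=
            mul_le_mul_of_nonneg_right h19 (by positivity)
    have h21 : Real.exp k * Real.exp ((u - 2 * k) / 2) = Real.exp (u / 2) := by
      rw [← Real.exp_add]; congr 1; ring
    have h22 : (10 : ℝ) ^ M * ((2 ^ J * J.factorial : ℕ) : ℝ) * (n * ev p u)
        ≤ (10 : ℝ) ^ M * ((2 ^ J * J.factorial : ℕ) : ℝ) * (w * Real.exp (u / 2)) := by
      rw [← h21]
      have h23 : ((-((n * 10 ^ M * (2 ^ J * J.factorial) : ℕ) : ℤ) : ℤ) : ℝ)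
          = -(n * 10 ^ M * ((2 ^ J * J.factorial : ℕ) : ℝ)) := by push_cast; ring
      rw [h23] at h7
      nlinarith [h7, h18]
    exact le_of_mul_le_mul_left h22 (by positivity)
  have h24 := wl_le n s b hn hs hb X' u (by exact_mod_cast hc) y
  rw [hw] at h24
  have h24' : (w : ℝ) ≤ n * ((yl s b y).map fun a => a.2 * wt n s a.1 u).sum := by exact_mod_cast h24
  have h25 : (n : ℝ) * (ev p u * Real.exp (-u / 2)) ≤ w := by
    have h26 : Real.exp (u / 2) * Real.exp (-u / 2) = 1 := by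
      rw [← Real.exp_add]; simp [neg_div]
    calc (n : ℝ) * (ev p u * Real.exp (-u / 2)) = (n * ev p u) * Real.exp (-u / 2) := by ring
      _ ≤ (w * Real.exp (u / 2)) * Real.exp (-u / 2) :=
        mul_le_mul_of_nonneg_right h17 (Real.exp_pos _).le
      _ = w := by rw [mul_assoc, h26, mul_one]
  exact le_of_mul_le_mul_left (h25.trans h24') hn'

/-- the certificate from the parts -/
theorem cert_of (n s b : ℕ) (q p : List ℤ) (y : List (ℕ × ℕ)) (X : ℕ) (q0 : ℤ)
    (h1 : 2 ≤ n) (h2 : 1 ≤ s) (h3 : 1 ≤ b) (h4 : chkY n s b y = true)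
    (h5 : PosT (scl b q) 0) (h6 : nn (q0 - 1) = true) (h7 : nn (p.headD 0) = true)
    (h8 : tr n q = p) (h9 : (tr n p).headD 0 = q0) (h10 : Pc n s b p y (s * b) X)
    (h11 : PosT (scl b (sm (-1) p)) X) : Cert n s q (yl s b y) := by
  have hb' : (0 : ℝ) < b := by exact_mod_cast h3
  have hbz : (0 : ℤ) < b := by exact_mod_cast h3
  refine ⟨h1, by exact_mod_cast h2, ?_, ?_, ?_, ?_, ?_⟩
  · exact chkY_sound _ _ _ (by omega) h2 h3 _ h4
  · intro v hv
    have h11 := h5 (b * v) (by push_cast; positivity)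
    exact ev_nonneg_of_scl hbz (by exact_mod_cast h11)
  · rw [h8, ev_zero, h9]
    have := nn_iff h6
    exact_mod_cast (by omega : (0 : ℤ) < q0)
  · rw [h8, ev_zero]
    exact_mod_cast nn_iff h7
  · intro u hu
    rw [h8]
    have hu' : ((s * b : ℕ) : ℝ) ≤ b * u := by push_cast; nlinarith
    rcases lt_or_ge ((b : ℝ) * u) (X : ℝ) with h | h
    · exact h10 u hu' h
    · have h12 := h11 (b * u) h
      have h13 := ev_nonneg_of_scl hbz (l := sm (-1) p) (x := u) (by exact_mod_cast h12)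
      rw [ev_sm] at h13
      push_cast at h13
      have h14 : ev p u * Real.exp (-u / 2) ≤ 0 :=
        mul_nonpos_of_nonpos_of_nonneg (by linarith) (Real.exp_pos _).le
      refine h14.trans (List.sum_nonneg ?_)
      intro z hz
      simp only [yl, List.map_map, List.mem_map, Function.comp] at hz
      obtain ⟨a, _, rfl⟩ := hz
      exact mul_nonneg (Nat.cast_nonneg _) (wt_nonneg _ _ _ _)

end Pool.Agent.LPC.H17
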