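import Pool.Agent.Helper17_LPC.ChkN
import Pool.Agent.Helper7_LPC.GIN
import Pool.Agent.Helper4_LPC.GFT
import Pool.Agent.Helper59_LPC.GDR
import Pool.Agent.Helper6_LPC.KDR
import Pool.Agent.Helper42_LPC.FTR
import Pool.Agent.Helper52_LPC.PDF
import Pool.Agent.Helper89_LPC.FIN0
import Pool.Agent.Helper73_LPC.ASY
import Pool.Agent.Helper73_LPC.IND
import Pool.Agent.Helper19_LPC.COS
import Pool.Agent.Helper69_LPC.CLA
import Pool.Agent.Helper80_LPC.QUO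
import Pool.Agent.Helper19_LPC.CLS
import Pool.Agent.Helper32_LPC.SCA
import Pool.Agent.Helper26_LPC.DEN
import Pool.Agent.Helper23_LPC.ASM

/-!
# Squad LPC: assembly and numerical values
-/

set_option autoImplicit false

noncomputable section

open MeasureTheory Filter Topology

namespace Pool.Agent.LPC.H17

open Pool.Agent.LPC

theorem ftrAll : FtrStmt := H42.ftr H7.gin H4.gft (H59.gdr H7.gin) H6.kdr

theorem asyAll : AsyStmt := H73.asy H89.fin0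

theorem clsAll : ClsStmt := H19.cls (H69.cla H73.ind H19.cos) H80.quo

theorem denAll : DenStmt := H26.den H89.fin0

theorem asmAll : AsmStmt := H23.asm ftrAll H52.pdf asyAll clsAll H32.sca denAll

theorem sum_yl (s b : ℕ) (y : List (ℕ × ℕ)) :
    ((yl s b y).map fun a => a.2).sum = (((y.map fun a => a.2).sum : ℕ) : ℝ) := by
  induction y with
  | nil => simp [yl]
  | cons a y ih =>
    simp only [yl, List.map_cons, List.sum_cons, Nat.cast_add] at *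
    rw [ih]

theorem pow_half (n : ℕ) : ((18 : ℝ) / 8) ^ ((n : ℝ) / 2) = (3 / 2) ^ n := by
  rw [H23.half_pow (by norm_num) n]
  congr 1
  rw [show (18 : ℝ) / 8 = (3 / 2) ^ 2 by norm_num]
  exact Real.sqrt_sq (by norm_num)

/-- the bound for the density from the data -/
theorem bound (n b : ℕ) (q p : List ℤ) (y : List (ℕ × ℕ))
    (hC : Cert n (18 : ℕ) q (yl 18 b y)) (h8 : tr n q = p) (p0 q0 Y : ℕ)
    (hp : p.headD 0 = p0) (hq : (tr n p).headD 0 = q0) (hY : (y.map fun a => a.2).sum = Y)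
    (γ δ : ℝ) (hγ : 0 < γ) (hΓ : γ ≤ Real.Gamma ((n : ℝ) / 2 + 1))
    (hδ : (3 / 2) ^ n * ((p0 : ℝ) + 2 * (2 ^ n - 1) * Y) ≤ δ * (γ * q0))
    (L : AddSubgroup (EuclideanSpace ℝ (Fin n)))
    (hL : (L : Set (EuclideanSpace ℝ (Fin n))).Pairwise (fun x y => 2 ≤ dist x y)) :
    Filter.limsup (fun R : ℝ =>
      volume ((⋃ x ∈ (L : Set (EuclideanSpace ℝ (Fin n))), Metric.ball x 1) ∩
          Metric.ball (0 : EuclideanSpace ℝ (Fin n)) R) /
        volume (Metric.ball (0 : EuclideanSpace ℝ (Fin n)) R)) atTop ≤ ENNReal.ofReal δ := by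
  have h0 := asmAll n (18 : ℕ) q (yl 18 b y) hC L hL
  refine h0.trans (ENNReal.ofReal_le_ofReal ?_)
  have hqpos := hC.q0
  rw [h8, ev_zero, hq] at hqpos
  rw [h8, ev_zero, ev_zero, hp, hq, sum_yl, hY]
  have hq' : (0 : ℝ) < q0 := by exact_mod_cast hqpos
  have e18 : (((18 : ℕ) : ℝ) / 8) ^ ((n : ℝ) / 2) = (3 / 2) ^ n := by
    have := pow_half n
    exact_mod_cast this
  rw [e18]
  have hG : 0 < Real.Gamma ((n : ℝ) / 2 + 1) := lt_of_lt_of_le hγ hΓ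
  have hnn : (0 : ℝ) ≤ (3 / 2) ^ n * ((p0 : ℝ) + 2 * (2 ^ n - 1) * Y) := by
    have h2 : (1 : ℝ) ≤ 2 ^ n := one_le_pow₀ (by norm_num)
    have h3 : (0 : ℝ) ≤ 2 * (2 ^ n - 1) * Y :=
      mul_nonneg (by linarith) (Nat.cast_nonneg _)
    have h4 : (0 : ℝ) ≤ p0 := Nat.cast_nonneg _
    positivity
  have hδ0 : 0 ≤ δ := by
    by_contra hc
    push Not at hc
    have : δ * (γ * q0) < 0 := mul_neg_of_neg_of_pos hc (mul_pos hγ hq')
    linarith
  have e1 : (3 / 2 : ℝ) ^ n / Real.Gamma ((n : ℝ) / 2 + 1) *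
      ((((p0 : ℕ) : ℤ) : ℝ) + 2 * (2 ^ n - 1) * ((Y : ℕ) : ℝ)) / (((q0 : ℕ) : ℤ) : ℝ) =
      ((3 / 2) ^ n * ((p0 : ℝ) + 2 * (2 ^ n - 1) * Y)) /
        (Real.Gamma ((n : ℝ) / 2 + 1) * q0) := by
    push_cast
    field_simp
  have e2 : (3 / 2 : ℝ) ^ n / Real.Gamma ((n : ℝ) / 2 + 1) *
      (((((p0 : ℕ) : ℤ) : ℝ) + 2 * (2 ^ n - 1) * ((Y : ℕ) : ℝ)) / (((q0 : ℕ) : ℤ) : ℝ)) =
      ((3 / 2) ^ n * ((p0 : ℝ) + 2 * (2 ^ n - 1) * Y)) /
        (Real.Gamma ((n : ℝ) / 2 + 1) * q0) := by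
    rw [← e1]
    ring
  rw [e2, div_le_iff₀ (mul_pos hG hq')]
  refine hδ.trans (mul_le_mul_of_nonneg_left ?_ hδ0)
  exact mul_le_mul_of_nonneg_right hΓ hq'.le

theorem gamma_even (m : ℕ) : ((m.factorial : ℕ) : ℝ) ≤ Real.Gamma (((2 * m : ℕ) : ℝ) / 2 + 1) := by
  have : (((2 * m : ℕ) : ℝ) / 2 + 1) = (m : ℝ) + 1 := by push_cast; ring
  rw [this, Real.Gamma_nat_eq_factorial]

theorem gamma_odd (m : ℕ) : ((Nat.doubleFactorial (2 * m + 1) : ℕ) : ℝ) * 1.77245 / 2 ^ (m + 1) ≤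
    Real.Gamma (((2 * m + 1 : ℕ) : ℝ) / 2 + 1) := by
  have : (((2 * m + 1 : ℕ) : ℝ) / 2 + 1) = (m : ℝ) + 1 + 1 / 2 := by push_cast; ring
  rw [this, Real.Gamma_nat_add_one_add_half]
  have h1 : (1.77245 : ℝ) ≤ √Real.pi := by
    refine Real.le_sqrt_of_sq_le ?_
    have := Real.pi_gt_d6
    norm_num at this ⊢
    linarith
  gcongr

end Pool.Agent.LPC.H17
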