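import Pool.Agent.Helper17_LPC.Fin
import Pool.Agent.Helper17_LPC.Cer21

/-!
# Squad LPC: the bound in the dimension 21
-/

set_option autoImplicit false

noncomputable section

open MeasureTheory Filter Topology

namespace Pool.Agent.LPC.H17

open Pool.Agent.LPC

theorem val21 (L : AddSubgroup (EuclideanSpace ℝ (Fin 21)))
    (hL : (L : Set (EuclideanSpace ℝ (Fin 21))).Pairwise (fun x y => 2 ≤ dist x y)) :
    Filter.limsup (fun R : ℝ =>
      volume ((⋃ x ∈ (L : Set (EuclideanSpace ℝ (Fin 21))), Metric.ball x 1) ∩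
          Metric.ball (0 : EuclideanSpace ℝ (Fin 21)) R) /
        volume (Metric.ball (0 : EuclideanSpace ℝ (Fin 21)) R)) atTop ≤ ENNReal.ofReal 0.005205 := by
  refine bound 21 100 C21.q C21.p C21.y C21.cer C21.t1
    1241520027450405108679464883432484385988391762185270906458913636602
    100000005438468678725055703763217906217432150116873612599732723538
    51864386952521667821760000000000000000000008
    rfl C21.t2 rfl (13749310575 * 1.77245 / 2 ^ 11) 0.005205 (by norm_num) (by
    have := gamma_odd 10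
    norm_num [Nat.doubleFactorial] at this ⊢
    linarith) ?_ L hL
  norm_num

theorem ball21 : ENNReal.ofReal 0.005205 ≤ ENNReal.ofReal 0.3735 *
    volume (Metric.ball (0 : EuclideanSpace ℝ (Fin 21)) 1) := by
  rw [EuclideanSpace.volume_ball]
  simp only [Fintype.card_fin, ENNReal.ofReal_one, one_pow, one_mul]
  rw [← ENNReal.ofReal_mul (by norm_num)]
  apply ENNReal.ofReal_le_ofReal
  have e1 : (((21 : ℕ) : ℝ) / 2 + 1) = ((10 : ℕ) : ℝ) + 1 + 1 / 2 := by norm_num
  rw [e1, Real.Gamma_nat_add_one_add_half]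
  have hpos : 0 < √Real.pi := Real.sqrt_pos.mpr Real.pi_pos
  have e2 : √Real.pi ^ 21 = Real.pi ^ 10 * √Real.pi := by
    have h1 : √Real.pi ^ 2 = Real.pi := Real.sq_sqrt Real.pi_pos.le
    calc √Real.pi ^ 21 = (√Real.pi ^ 2) ^ 10 * √Real.pi := by ring
      _ = Real.pi ^ 10 * √Real.pi := by rw [h1]
  have e3 : (Nat.doubleFactorial (2 * 10 + 1) : ℝ) = 13749310575 := by
    norm_num [Nat.doubleFactorial]
  rw [e2, e3]
  have h3 : (3.1415 : ℝ) ^ 10 ≤ Real.pi ^ 10 := by
    have := Real.pi_gt_d6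
    exact pow_le_pow_left₀ (by norm_num) (by linarith) 10
  have e4 : (0.3735 : ℝ) * (Real.pi ^ 10 * √Real.pi / (13749310575 * √Real.pi / 2 ^ (10 + 1))) =
      0.3735 * 2 ^ 11 / 13749310575 * Real.pi ^ 10 := by
    field_simp
  rw [e4]
  calc (0.005205 : ℝ) ≤ 0.3735 * 2 ^ 11 / 13749310575 * (3.1415 : ℝ) ^ 10 := by norm_num
    _ ≤ _ := by gcongr

/-- lattice packings in dimension 21 have centre density at most `0.3735` -/
theorem val21D (L : AddSubgroup (EuclideanSpace ℝ (Fin 21)))
    (hL : (L : Set (EuclideanSpace ℝ (Fin 21))).Pairwise (fun x y => 2 ≤ dist x y)) :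
    Filter.limsup (fun R : ℝ =>
      volume ((⋃ x ∈ (L : Set (EuclideanSpace ℝ (Fin 21))), Metric.ball x 1) ∩
          Metric.ball (0 : EuclideanSpace ℝ (Fin 21)) R) /
        volume (Metric.ball (0 : EuclideanSpace ℝ (Fin 21)) R)) atTop ≤
      ENNReal.ofReal 0.3735 * volume (Metric.ball (0 : EuclideanSpace ℝ (Fin 21)) 1) :=
  (val21 L hL).trans ball21

end Pool.Agent.LPC.H17
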