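import Pool.Agent.Helper17_LPC.Fin
import Pool.Agent.Helper17_LPC.Cer11
import Pool.Agent.Helper17_LPC.Cer12
import Pool.Agent.Helper17_LPC.Cer13
import Pool.Agent.Helper17_LPC.Cer14
import Pool.Agent.Helper17_LPC.Cer15
import Pool.Agent.Helper17_LPC.Cer16
import Pool.Agent.Helper17_LPC.Cer17
import Pool.Agent.Helper17_LPC.Cer18
import Pool.Agent.Helper17_LPC.Cer19
import Pool.Agent.Helper17_LPC.Cer20

/-!
# Squad LPC: the bounds in the dimensions 11 to 20
-/

set_option autoImplicit false

noncomputable section

open MeasureTheory Filter Topology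

namespace Pool.Agent.LPC.H17

open Pool.Agent.LPC

theorem val11 (L : AddSubgroup (EuclideanSpace ℝ (Fin 11)))
    (hL : (L : Set (EuclideanSpace ℝ (Fin 11))).Pairwise (fun x y => 2 ≤ dist x y)) :
    Filter.limsup (fun R : ℝ =>
      volume ((⋃ x ∈ (L : Set (EuclideanSpace ℝ (Fin 11))), Metric.ball x 1) ∩
          Metric.ball (0 : EuclideanSpace ℝ (Fin 11)) R) /
        volume (Metric.ball (0 : EuclideanSpace ℝ (Fin 11)) R)) atTop ≤ ENNReal.ofReal 0.09505 := by
  refine bound 11 100 C11.q C11.p C11.y C11.cer C11.t1
    18806967179531469228389842242553274305682487026896361841393600673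
    99999999999999999996835312969240939855369447078758948777021942078
    3133305071967749142505300000000000000000000000000000000000008
    rfl C11.t2 rfl (10395 * 1.77245 / 2 ^ 6) 0.09505 (by norm_num) (by
    have := gamma_odd 5
    norm_num [Nat.doubleFactorial] at this ⊢
    linarith) ?_ L hL
  norm_num

theorem val12 (L : AddSubgroup (EuclideanSpace ℝ (Fin 12)))
    (hL : (L : Set (EuclideanSpace ℝ (Fin 12))).Pairwise (fun x y => 2 ≤ dist x y)) :
    Filter.limsup (fun R : ℝ =>
      volume ((⋃ x ∈ (L : Set (EuclideanSpace ℝ (Fin 12))), Metric.ball x 1) ∩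
          Metric.ball (0 : EuclideanSpace ℝ (Fin 12)) R) /
        volume (Metric.ball (0 : EuclideanSpace ℝ (Fin 12)) R)) atTop ≤ ENNReal.ofReal 0.06805 := by
  refine bound 12 100 C12.q C12.p C12.y C12.cer C12.t1
    21312583841210917670134421494502251927872940218354782565077464704
    99999999999999999963614510966340000000000000000000000000000000000
    2008030503897732732201000000000000000000000000000000000000008
    rfl C12.t2 rfl (720) 0.06805 (by norm_num) (by
    have := gamma_even 6
    norm_num [Nat.factorial] at this ⊢
    try linarith) ?_ L hL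
  norm_num

theorem val13 (L : AddSubgroup (EuclideanSpace ℝ (Fin 13)))
    (hL : (L : Set (EuclideanSpace ℝ (Fin 13))).Pairwise (fun x y => 2 ≤ dist x y)) :
    Filter.limsup (fun R : ℝ =>
      volume ((⋃ x ∈ (L : Set (EuclideanSpace ℝ (Fin 13))), Metric.ball x 1) ∩
          Metric.ball (0 : EuclideanSpace ℝ (Fin 13)) R) /
        volume (Metric.ball (0 : EuclideanSpace ℝ (Fin 13)) R)) atTop ≤ ENNReal.ofReal 0.04885 := by
  refine bound 13 100 C13.q C13.p C13.y C13.cer C13.t1
    25070399608221633520382643880459332570504890541630099928731486977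
    99999999999999999969344422610010134918484087546836081017431752116
    1336305546228972567030320000000000000000000000000000000000008
    rfl C13.t2 rfl (135135 * 1.77245 / 2 ^ 7) 0.04885 (by norm_num) (by
    have := gamma_odd 6
    norm_num [Nat.doubleFactorial] at this ⊢
    linarith) ?_ L hL
  norm_num

theorem val14 (L : AddSubgroup (EuclideanSpace ℝ (Fin 14)))
    (hL : (L : Set (EuclideanSpace ℝ (Fin 14))).Pairwise (fun x y => 2 ≤ dist x y)) :
    Filter.limsup (fun R : ℝ =>
      volume ((⋃ x ∈ (L : Set (EuclideanSpace ℝ (Fin 14))), Metric.ball x 1) ∩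
          Metric.ball (0 : EuclideanSpace ℝ (Fin 14)) R) /
        volume (Metric.ball (0 : EuclideanSpace ℝ (Fin 14)) R)) atTop ≤ ENNReal.ofReal 0.0353 := by
  refine bound 14 100 C14.q C14.p C14.y C14.cer C14.t1
    31283124546405798987279915495805755998505001386143022762479699136
    99999999999999999994126077177800000000000000000000000000000000000
    904672113474776635629210000000000000000000000000000000000008
    rfl C14.t2 rfl (5040) 0.0353 (by norm_num) (by
    have := gamma_even 7
    norm_num [Nat.factorial] at this ⊢
    try linarith) ?_ L hL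
  norm_num

theorem val15 (L : AddSubgroup (EuclideanSpace ℝ (Fin 15)))
    (hL : (L : Set (EuclideanSpace ℝ (Fin 15))).Pairwise (fun x y => 2 ≤ dist x y)) :
    Filter.limsup (fun R : ℝ =>
      volume ((⋃ x ∈ (L : Set (EuclideanSpace ℝ (Fin 15))), Metric.ball x 1) ∩
          Metric.ball (0 : EuclideanSpace ℝ (Fin 15)) R) /
        volume (Metric.ball (0 : EuclideanSpace ℝ (Fin 15)) R)) atTop ≤ ENNReal.ofReal 0.02576 := by
  refine bound 15 100 C15.q C15.p C15.y C15.cer C15.t1
    40363781271610286633777740482794507976402832683825810992151005939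
    100000000000000000010973837266267859738640491449844505122968030264
    643839394404238437891560000000000000000000000000000000000008
    rfl C15.t2 rfl (2027025 * 1.77245 / 2 ^ 8) 0.02576 (by norm_num) (by
    have := gamma_odd 7
    norm_num [Nat.doubleFactorial] at this ⊢
    linarith) ?_ L hL
  norm_num

theorem val16 (L : AddSubgroup (EuclideanSpace ℝ (Fin 16)))
    (hL : (L : Set (EuclideanSpace ℝ (Fin 16))).Pairwise (fun x y => 2 ≤ dist x y)) :
    Filter.limsup (fun R : ℝ =>
      volume ((⋃ x ∈ (L : Set (EuclideanSpace ℝ (Fin 16))), Metric.ball x 1) ∩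
          Metric.ball (0 : EuclideanSpace ℝ (Fin 16)) R) /
        volume (Metric.ball (0 : EuclideanSpace ℝ (Fin 16)) R)) atTop ≤ ENNReal.ofReal 0.01907 := by
  refine bound 16 100 C16.q C16.p C16.y C16.cer C16.t1
    53547275381430252729028789124437754539979049895749079214105344000
    99999999999999999987765648723632000000000000000000000000000000000
    484358262556946122180210000000000000000000000000000000000008
    rfl C16.t2 rfl (40320) 0.01907 (by norm_num) (by
    have := gamma_even 8
    norm_num [Nat.factorial] at this ⊢
    try linarith) ?_ L hL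
  norm_num

theorem val17 (L : AddSubgroup (EuclideanSpace ℝ (Fin 17)))
    (hL : (L : Set (EuclideanSpace ℝ (Fin 17))).Pairwise (fun x y => 2 ≤ dist x y)) :
    Filter.limsup (fun R : ℝ =>
      volume ((⋃ x ∈ (L : Set (EuclideanSpace ℝ (Fin 17))), Metric.ball x 1) ∩
          Metric.ball (0 : EuclideanSpace ℝ (Fin 17)) R) /
        volume (Metric.ball (0 : EuclideanSpace ℝ (Fin 17)) R)) atTop ≤ ENNReal.ofReal 0.01436 := by
  refine bound 17 100 C17.q C17.p C17.y C17.cer C17.t1
    72578183794837057588444712606661626991445813436422493857744209428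
    100000000000000000000357325464031047440673056727611367477948078886
    386111495324327192191940000000000000000000000000000000000008
    rfl C17.t2 rfl (34459425 * 1.77245 / 2 ^ 9) 0.01436 (by norm_num) (by
    have := gamma_odd 8
    norm_num [Nat.doubleFactorial] at this ⊢
    linarith) ?_ L hL
  norm_num

theorem val18 (L : AddSubgroup (EuclideanSpace ℝ (Fin 18)))
    (hL : (L : Set (EuclideanSpace ℝ (Fin 18))).Pairwise (fun x y => 2 ≤ dist x y)) :
    Filter.limsup (fun R : ℝ =>
      volume ((⋃ x ∈ (L : Set (EuclideanSpace ℝ (Fin 18))), Metric.ball x 1) ∩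
          Metric.ball (0 : EuclideanSpace ℝ (Fin 18)) R) /
        volume (Metric.ball (0 : EuclideanSpace ℝ (Fin 18)) R)) atTop ≤ ENNReal.ofReal 0.01103 := by
  refine bound 18 100 C18.q C18.p C18.y C18.cer C18.t1
    101583776793584070441726597317848979131138064234030311214598802560
    99999999999999999964012134940080000000000000000000000000000000000
    322451536836322266367300000000000000000000000000000000000008
    rfl C18.t2 rfl (362880) 0.01103 (by norm_num) (by
    have := gamma_even 9
    norm_num [Nat.factorial] at this ⊢
    try linarith) ?_ L hL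
  norm_num

theorem val19 (L : AddSubgroup (EuclideanSpace ℝ (Fin 19)))
    (hL : (L : Set (EuclideanSpace ℝ (Fin 19))).Pairwise (fun x y => 2 ≤ dist x y)) :
    Filter.limsup (fun R : ℝ =>
      volume ((⋃ x ∈ (L : Set (EuclideanSpace ℝ (Fin 19))), Metric.ball x 1) ∩
          Metric.ball (0 : EuclideanSpace ℝ (Fin 19)) R) /
        volume (Metric.ball (0 : EuclideanSpace ℝ (Fin 19)) R)) atTop ≤ ENNReal.ofReal 0.00859 := by
  refine bound 19 100 C19.q C19.p C19.y C19.cer C19.t1
    156988144436563647349563115874291563974932190803527370041505565169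
    99999999999999999999361833789518285268821355520861560162160230902
    268682408637748765742500000000000000000000000000000000000008
    rfl C19.t2 rfl (654729075 * 1.77245 / 2 ^ 10) 0.00859 (by norm_num) (by
    have := gamma_odd 9
    norm_num [Nat.doubleFactorial] at this ⊢
    linarith) ?_ L hL
  norm_num

theorem val20 (L : AddSubgroup (EuclideanSpace ℝ (Fin 20)))
    (hL : (L : Set (EuclideanSpace ℝ (Fin 20))).Pairwise (fun x y => 2 ≤ dist x y)) :
    Filter.limsup (fun R : ℝ =>
      volume ((⋃ x ∈ (L : Set (EuclideanSpace ℝ (Fin 20))), Metric.ball x 1) ∩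
          Metric.ball (0 : EuclideanSpace ℝ (Fin 20)) R) /
        volume (Metric.ball (0 : EuclideanSpace ℝ (Fin 20)) R)) atTop ≤ ENNReal.ofReal 0.00675 := by
  refine bound 20 100 C20.q C20.p C20.y C20.cer C20.t1
    279852922022289515350248205681782208711209325218589936680696210240
    99999999999999999944241499290224000000000000000000000000000000000
    217408261252221949989250000000000000000000000000000000000008
    rfl C20.t2 rfl (3628800) 0.00675 (by norm_num) (by
    have := gamma_even 10
    norm_num [Nat.factorial] at this ⊢
    try linarith) ?_ L hL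
  norm_num

end Pool.Agent.LPC.H17
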